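import Pool.Agent.N931.PN.Stm3
import Pool.Agent.N116.EW.Far

/-!
Project PN (helper931): the exploration path is random in the limit, from the separation of the
connection probabilities.
-/

set_option autoImplicit false

namespace Pool.Agent.N572.PN.Var

open H974 H12S H389NS H984N H984P H342P
open Pool.Agent.N116.EW Pool.Agent.N931.PN
open H342L (cdist Curve)

/-- The rightmost point of the critical path is not concentrated. -/
theorem levels (hSEP : S_SEP) (R : Rect) : ∃ xs c : ℝ, xs < R.B ∧ 0 < c ∧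
    ∀ x1 x2 : ℝ, xs ≤ x1 → x1 < x2 → x2 < R.B → ∃ δ0 : ℝ, 0 < δ0 ∧ ∀ δ : ℝ, 0 < δ → δ ≤ δ0 →
      c ≤ Pr (fun _ => (1 / 2 : ℝ)) (R.dm δ).edges
        (fun F => x1 ≤ fre (⟨R.curve δ F⟩ : Curve)) ∧
      c ≤ Pr (fun _ => (1 / 2 : ℝ)) (R.dm δ).edges
        (fun F => ¬ x2 < fre (⟨R.curve δ F⟩ : Curve)) := by
  obtain ⟨κ, S, δ0, hκ, hS, hδ0, hδ01, hshape⟩ := R.shape
  obtain ⟨T, hT⟩ : ∃ T, T = max R.t 0 := ⟨_, rfl⟩
  have hTt : R.t ≤ T := by rw [hT]; exact le_max_left _ _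
  have hT0 : 0 ≤ T := by rw [hT]; exact le_max_right _ _
  have hTB : T < R.B := by rw [hT]; exact max_lt R.ht2 R.hB
  obtain ⟨κ', hκ'⟩ : ∃ κ', κ' = min κ ((R.B - T) / (2 * S)) := ⟨_, rfl⟩
  have hκ'0 : 0 < κ' := by
    rw [hκ']
    exact lt_min hκ (div_pos (by linarith) (by positivity))
  obtain ⟨c, hc, hsep⟩ := hSEP κ' hκ'0
  refine ⟨(T + R.B) / 2, c / 2, by linarith, by linarith, ?_⟩
  intro x1 x2 hx1 hx12 hx2
  refine ⟨min (min δ0 S) (min ((x2 - x1) / 4) (R.B - x2)),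
    lt_min (lt_min hδ0 hS) (lt_min (by linarith) (by linarith)), ?_⟩
  intro δ hδ hle
  have d1 : δ ≤ δ0 := hle.trans ((min_le_left _ _).trans (min_le_left _ _))
  have d2 : δ ≤ S := hle.trans ((min_le_left _ _).trans (min_le_right _ _))
  have d3 : δ ≤ (x2 - x1) / 4 := hle.trans ((min_le_right _ _).trans (min_le_left _ _))
  have d4 : δ ≤ R.B - x2 := hle.trans ((min_le_right _ _).trans (min_le_right _ _))
  obtain ⟨n, hn⟩ : ∃ n, n = S / δ := ⟨_, rfl⟩
  have hn1 : 1 ≤ n := by rw [hn, le_div_iff₀ hδ]; linarith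
  have hn0 : 0 ≤ n := by linarith
  have hsh : (R.dm δ).Shape κ' n := by
    rw [hn]
    exact shape_mono (by positivity) (by rw [hκ']; exact min_le_left _ _) (hshape δ hδ d1)
  have hD := hsh.ok
  -- the column
  obtain ⟨m, hm⟩ : ∃ m : ℤ, m = ⌊(x1 + x2) / (2 * δ)⌋ := ⟨_, rfl⟩
  have hmle : (m : ℝ) ≤ (x1 + x2) / (2 * δ) := by rw [hm]; exact Int.floor_le _
  have hmge : (x1 + x2) / (2 * δ) < (m : ℝ) + 1 := by rw [hm]; exact Int.lt_floor_add_one _
  have hmle' : δ * (m : ℝ) ≤ (x1 + x2) / 2 := by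
    rw [le_div_iff₀ (by positivity)] at hmle
    linarith
  have hmge' : (x1 + x2) / 2 < δ * (m : ℝ) + δ := by
    rw [div_lt_iff₀ (by positivity)] at hmge
    linarith
  have hdt : (R.dm δ).t = ⌊R.t / δ⌋ := rfl
  have hdr : (R.dm δ).r = ⌈R.B / δ⌉ - 1 := rfl
  have hmr : m ≤ (R.dm δ).r := by
    rw [hdr]
    have h1 : (m : ℝ) + 1 ≤ R.B / δ := by
      rw [le_div_iff₀ hδ]
      linarith
    have h2 : ((m + 1 : ℤ) : ℝ) ≤ ((⌈R.B / δ⌉ : ℤ) : ℝ) := by
      push_cast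
      exact h1.trans (Int.le_ceil _)
    have h3 : m + 1 ≤ ⌈R.B / δ⌉ := by exact_mod_cast h2
    omega
  have hmt : ((max (R.dm δ).t 0 : ℤ) : ℝ) ≤ T / δ := by
    rw [hdt]
    push_cast
    apply max_le
    · refine (Int.floor_le _).trans ?_
      exact div_le_div_of_nonneg_right hTt hδ.le
    · positivity
  have hgap : ((max (R.dm δ).t 0 : ℤ) : ℝ) + κ' * n ≤ m := by
    have h1 : κ' * n ≤ (R.B - T) / (2 * δ) := by
      have h2 : κ' ≤ (R.B - T) / (2 * S) := by rw [hκ']; exact min_le_right _ _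
      calc κ' * n ≤ (R.B - T) / (2 * S) * n := mul_le_mul_of_nonneg_right h2 hn0
        _ = (R.B - T) / (2 * δ) := by rw [hn]; field_simp
    have h2 : T / δ + (R.B - T) / (2 * δ) = (T + R.B) / 2 / δ := by field_simp; ring
    have h3 : (T + R.B) / 2 / δ ≤ m := by
      rw [div_le_iff₀ hδ]
      linarith
    linarith
  -- the events
  have hmpos : max (R.dm δ).t 0 < m := by
    have h1 : 0 < κ' * n := by positivity
    have h2 : ((max (R.dm δ).t 0 : ℤ) : ℝ) < m := by linarith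
    exact_mod_cast h2
  have hC : ∀ F : Finset Edg, F ⊆ (R.dm δ).edges → KM (R.dm δ) m F →
      x1 ≤ fre (⟨R.curve δ F⟩ : Curve) := by
    intro F hF hK
    have h1 := curve_reach R hδ hD hF ((hit (R.dm δ) hD m hmpos hmr F hF).2 hK)
    linarith
  have hO : ∀ F : Finset Edg, F ⊆ (R.dm δ).edges →
      x2 < fre (⟨R.curve δ F⟩ : Curve) → KM (R.dm δ) m F := by
    intro F hF hx
    rw [← hit (R.dm δ) hD m hmpos hmr F hF]
    by_contra hcon
    have h1 := curve_not_reach R hδ hD hF hcon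
    linarith
  -- the separation
  have hok : ∀ q : ℝ, 0 ≤ q → q ≤ 1 → Ok (fun _ : Edg => q) := fun q h0 h1 _ => ⟨h0, h1⟩
  have hn34 : (1 : ℝ) ≤ n ^ (3 / 4 : ℝ) := Real.one_le_rpow hn1 (by norm_num)
  have hmin1 : (1 : ℝ) / 2 ≤ min 1 ((1 - 1 / 2) * n ^ (3 / 4 : ℝ)) :=
    le_min (by norm_num) (by linarith)
  have hmin0 : (1 : ℝ) / 2 ≤ min 1 ((1 / 2 - 0) * n ^ (3 / 4 : ℝ)) :=
    le_min (by norm_num) (by linarith)
  have s1 := (hsep n (R.dm δ) hn1 hsh m hgap hmr 1 (by norm_num) le_rfl).1 (by norm_num)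
  have s0 := (hsep n (R.dm δ) hn1 hsh m hgap hmr 0 le_rfl (by norm_num)).2 (by norm_num)
  have m1 := mul_le_mul_of_nonneg_left hmin1 hc.le
  have m0 := mul_le_mul_of_nonneg_left hmin0 hc.le
  have p1 := Pr_le_one (hok 1 (by norm_num) le_rfl) (R.dm δ).edges (KM (R.dm δ) m)
  have p0 := Pr_nonneg (hok 0 le_rfl (by norm_num)) (R.dm δ).edges (KM (R.dm δ) m)
  have hh := hok (1 / 2) (by norm_num) (by norm_num)
  constructor
  · have h1 : Pr (fun _ => (1 / 2 : ℝ)) (R.dm δ).edges (KM (R.dm δ) m) ≤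
        Pr (fun _ => (1 / 2 : ℝ)) (R.dm δ).edges
          (fun F => x1 ≤ fre (⟨R.curve δ F⟩ : Curve)) := Pr_mono hh hC
    linarith
  · have h1 : Pr (fun _ => (1 / 2 : ℝ)) (R.dm δ).edges
        (fun F => x2 < fre (⟨R.curve δ F⟩ : Curve)) ≤
          Pr (fun _ => (1 / 2 : ℝ)) (R.dm δ).edges (KM (R.dm δ) m) := Pr_mono hh hO
    rw [Pr_not]
    linarith

/-- The test function. -/
noncomputable def tf (y : ℝ) (γ : Curve) : ℝ := max (-1) (min 1 (fre γ - y))

theorem tf_Lp (y : ℝ) : Lp (tf y) := by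
  constructor
  · intro γ γ'
    have h1 : |fre γ - fre γ'| ≤ dist γ γ' := by
      rw [abs_le]
      have a1 := fre_lip γ γ'
      have a2 := fre_lip γ' γ
      rw [dist_comm] at a2
      constructor <;> linarith
    refine le_trans ?_ h1
    unfold tf
    have k1 := abs_max_sub_max_le_max (-1 : ℝ) (min 1 (fre γ - y)) (-1) (min 1 (fre γ' - y))
    have k2 := abs_min_sub_min_le_max (1 : ℝ) (fre γ - y) 1 (fre γ' - y)
    rw [sub_self, abs_zero, sub_sub_sub_cancel_right] at k2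
    rw [sub_self, abs_zero] at k1
    have k3 : max 0 |fre γ - fre γ'| = |fre γ - fre γ'| := max_eq_right (abs_nonneg _)
    rw [k3] at k2
    refine k1.trans (max_le (abs_nonneg _) k2)
  · intro γ
    unfold tf
    rw [abs_le]
    exact ⟨le_max_left _ _, max_le (by norm_num) (min_le_left _ _)⟩

theorem hp_ok' : Ok (hp : Edg → ℝ) := fun e => by unfold hp; norm_num

/-- A variance bound. -/
theorem var_lower {S : Finset Edg} (g : Finset Edg → ℝ) {c d : ℝ} (hd : 0 ≤ d)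
    (A B : Finset Edg → Prop) (hA : ∀ F, F ⊆ S → A F → d ≤ g F)
    (hB : ∀ F, F ⊆ S → B F → g F ≤ 0) (h1 : c ≤ Pr hp S A) (h2 : c ≤ Pr hp S B) :
    d ^ 2 / 4 * c ≤ Ex hp S (fun F => (g F) ^ 2) - (Ex hp S g) ^ 2 := by
  obtain ⟨μ, hμ⟩ : ∃ μ, μ = Ex hp S g := ⟨_, rfl⟩
  have e1 : Ex hp S (fun F => (g F) ^ 2) - (Ex hp S g) ^ 2 =
      Ex hp S (fun F => (g F - μ) ^ 2) := by
    have h3 : (fun F => (g F - μ) ^ 2) =
        fun F => ((g F) ^ 2 + (-(2 * μ)) * g F) + μ ^ 2 := by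
      funext F
      ring
    rw [h3, Ex_add, Ex_add, Ex_mul_left, Ex_const, ← hμ]
    ring
  rw [e1]
  have hd4 : 0 ≤ d ^ 2 / 4 := by positivity
  rcases le_total μ (d / 2) with hm | hm
  · calc d ^ 2 / 4 * c ≤ d ^ 2 / 4 * Pr hp S A := mul_le_mul_of_nonneg_left h1 hd4
      _ = Ex hp S (fun F => d ^ 2 / 4 * ind (A F)) := by rw [Ex_mul_left]; rfl
      _ ≤ _ := by
        apply Ex_mono hp_ok'
        intro F hF
        by_cases h : A F
        · rw [ind_of h]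
          have := hA F hF h
          nlinarith
        · rw [ind_not_of h, mul_zero]
          positivity
  · calc d ^ 2 / 4 * c ≤ d ^ 2 / 4 * Pr hp S B := mul_le_mul_of_nonneg_left h2 hd4
      _ = Ex hp S (fun F => d ^ 2 / 4 * ind (B F)) := by rw [Ex_mul_left]; rfl
      _ ≤ _ := by
        apply Ex_mono hp_ok'
        intro F hF
        by_cases h : B F
        · rw [ind_of h]
          have := hB F hF h
          nlinarith
        · rw [ind_not_of h, mul_zero]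
          positivity

/-- PN/VAR from the separation of the connection probabilities. -/
theorem varOf (hSEP : S_SEP) : S_VAR := by
  intro R
  obtain ⟨xs, c, hxs, hc, hl⟩ := levels hSEP R
  obtain ⟨w, hw⟩ : ∃ w : ℝ, w = (R.B - xs) / 4 := ⟨_, rfl⟩
  have hw0 : 0 < w := by rw [hw]; linarith
  -- `x + w < x + 2 w`
  obtain ⟨δ1, hδ1, k1⟩ := hl xs (xs + w) le_rfl (by linarith) (by linarith)
  obtain ⟨δ2, hδ2, k2⟩ := hl (xs + 2 * w) (xs + 3 * w) (by linarith) (by linarith) (by linarith)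
  obtain ⟨d, hd⟩ : ∃ d : ℝ, d = min 1 w := ⟨_, rfl⟩
  have hd0 : 0 < d := by rw [hd]; exact lt_min one_pos hw0
  refine ⟨tf (xs + w), tf_Lp _, d ^ 2 / 4 * c, min δ1 δ2, by positivity, lt_min hδ1 hδ2, ?_⟩
  intro δ hδ hle
  have a1 := (k1 δ hδ (hle.trans (min_le_left _ _))).2
  have a2 := (k2 δ hδ (hle.trans (min_le_right _ _))).1
  apply var_lower (hf R δ (tf (xs + w))) hd0.le
    (fun F => xs + 2 * w ≤ fre (⟨R.curve δ F⟩ : Curve))
    (fun F => ¬ xs + w < fre (⟨R.curve δ F⟩ : Curve)) ?_ ?_ a2 a1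
  · intro F _ h
    show d ≤ max (-1) (min 1 (fre (⟨R.curve δ F⟩ : Curve) - (xs + w)))
    refine le_trans ?_ (le_max_right _ _)
    rw [hd]
    exact min_le_min le_rfl (by linarith)
  · intro F _ h
    show max (-1) (min 1 (fre (⟨R.curve δ F⟩ : Curve) - (xs + w))) ≤ 0
    rw [not_lt] at h
    exact max_le (by norm_num) ((min_le_right _ _).trans (by linarith))

end Pool.Agent.N572.PN.Var
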