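import Pool.Agent.N572.PN.Var
import Pool.Agent.N768.EW.Sepp
import Pool.Agent.N196.EW.Inw
import Pool.Agent.N433.EW.Dom
import Pool.Agent.N216.EW.Mac

/-!
Project PN (helper931): the exploration path is random in the limit.
-/

set_option autoImplicit false

namespace Pool.Agent.N572.PN.Var

open Pool.Agent.N116.EW Pool.Agent.N931.PN

/-- PN/VAR. -/
theorem main : S_VAR := varOf (sep inw Pool.Agent.N433.EW.dom Pool.Agent.N216.EW.mac)

end Pool.Agent.N572.PN.Var
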